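import Pool.Agent.Y58.HT.Stm2

set_option autoImplicit false

/-!
Project HT (helper58), block DESC (helper813): countable subgroups of `PGL(2,K)` are defined over countable fields.
-/

universe u

namespace Pool.Agent.Y813.HT

open Matrix H361P
open scoped MatrixGroups
open Pool.Agent.Y58.HT

/-- the map induced by a homomorphism of fields -/
noncomputable def pmap {R S : Type u} [Field R] [Field S] (f : R →+* S) : PGL(2, R) →* PGL(2, S) :=
  ProjGenLinGroup.lift ((ProjGenLinGroup.mk).comp (GeneralLinearGroup.map f)) (by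
    ext u
    simp [GeneralLinearGroup.map_scalar])

theorem pmap_mk {R S : Type u} [Field R] [Field S] (f : R →+* S) (g : GL (Fin 2) R) :
    pmap f (ProjGenLinGroup.mk g) = ProjGenLinGroup.mk (GeneralLinearGroup.map f g) := rfl

theorem pmap_inj {R S : Type u} [Field R] [Field S] (f : R →+* S) :
    Function.Injective (pmap f) := by
  rw [injective_iff_map_eq_one]
  intro a ha
  obtain ⟨g, rfl⟩ := ProjGenLinGroup.mk_surjective a
  rw [pmap_mk] at ha
  obtain ⟨h1, h2, h3⟩ := entries_of_mk_eq_one _ ha
  rw [GeneralLinearGroup.map_apply] at h1 h2 h3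
  rw [GeneralLinearGroup.map_apply] at h3
  refine mk_eq_one_of_entries g ?_ ?_ ?_
  · exact (map_eq_zero f).mp h1
  · exact (map_eq_zero f).mp h2
  · exact f.injective h3

theorem t_desc : S_DESC.{u} := by
  intro K _ G _
  classical
  choose A hA using fun g : PGL(2, K) => ProjGenLinGroup.mk_surjective g
  let s : Set K := Set.range (fun x : G × Fin 2 × Fin 2 => (A x.1.1) x.2.1 x.2.2)
  have hs : s.Countable := Set.countable_range _
  let K0 : Subfield K := Subfield.closure s
  have hK0 : Countable K0 := by
    have h1 := Subfield.cardinalMk_closure_le_max s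
    rw [← Cardinal.mk_le_aleph0_iff]
    exact h1.trans (max_le (Cardinal.mk_le_aleph0_iff.mpr hs) le_rfl)
  refine ⟨K0, inferInstance, hK0, G.comap (pmap K0.subtype), ⟨?_⟩⟩
  let φ : G.comap (pmap K0.subtype) →* G := (pmap K0.subtype).subgroupComap G
  refine MulEquiv.ofBijective φ ⟨?_, ?_⟩
  · intro a b hab
    apply Subtype.ext
    apply pmap_inj K0.subtype
    exact congrArg Subtype.val hab
  · intro g
    have hmem : ∀ i j, (A g.1) i j ∈ K0 := fun i j => Subfield.subset_closure ⟨(g, i, j), rfl⟩
    let B : Matrix (Fin 2) (Fin 2) K0 := fun i j => ⟨(A g.1) i j, hmem i j⟩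
    have hB : K0.subtype.mapMatrix B = (A g.1).val := by
      ext i j; rfl
    have hdet : B.det ≠ 0 := by
      intro h
      have h2 := congrArg K0.subtype h
      rw [RingHom.map_det, hB, map_zero] at h2
      exact (A g.1).det_ne_zero h2
    let C : GL (Fin 2) K0 := GeneralLinearGroup.mkOfDetNeZero B hdet
    have hC : GeneralLinearGroup.map K0.subtype C = A g.1 := by
      ext i j; rfl
    have hCg : pmap K0.subtype (ProjGenLinGroup.mk C) = g.1 := by
      rw [pmap_mk, hC, hA]
    refine ⟨⟨ProjGenLinGroup.mk C, ?_⟩, ?_⟩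
    · show pmap K0.subtype (ProjGenLinGroup.mk C) ∈ G
      rw [hCg]; exact g.2
    · apply Subtype.ext
      exact hCg

end Pool.Agent.Y813.HT
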